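import Pool.Agent.T6.H79.ABC.Many

/-!
# The number of algebraic numbers of degree `n` whose radical is small
-/

set_option autoImplicit false

namespace Pool.Agent.T6.H79.ABC

open NumberField Polynomial Module Finset Filter Topology
open Pool.Agent.W222.UABC
open scoped IntermediateField

/-- the algebraic numbers which are counted -/
def Exc (n : ℕ) (t c₀ B : ℝ) : Set (AlgebraicClosure ℚ) :=
  {x | x ≠ 0 ∧ x ≠ 1 ∧ finrank ℚ ℚ⟮x⟯ = n ∧ Real.exp (height (pt x)) ≤ B ∧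
    conductor (pt x) ≤ t * height (pt x) + c₀}

theorem upper (n : ℕ) (hn : 2 ≤ n) {t : ℝ} (ht : 0 ≤ t) (c₀ : ℝ) {δ : ℝ} (hδ : 0 < δ) :
    ∃ C : ℝ, ∀ B : ℝ, 1 ≤ B → (Exc n t c₀ B).Finite ∧
      ((Exc n t c₀ B).ncard : ℝ) ≤ C * B ^ ((n : ℝ) * (n - 2 + t) + δ) := by
  classical
  have hn0 : (0 : ℝ) < n := by exact_mod_cast (by omega : 0 < n)
  obtain ⟨D, hD, hfew⟩ := few_x n hn (ε := δ / n) (by positivity)
  refine ⟨D * Real.exp (n * |c₀|), ?_⟩
  intro B hB
  have hB0 : 0 < B := by linarith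
  have hlB : 0 ≤ Real.log B := Real.log_nonneg hB
  refine ncard_le_of _ _ fun E hE => ?_
  set X : ℝ := n * Real.log B with hX
  have hX0 : 0 ≤ X := by positivity
  have hE1 : ∀ x ∈ E, x ≠ 1 := fun x hx => (hE (Finset.mem_coe.2 hx)).2.1
  have hgood : ∀ x ∈ E, Good n X (t * X + n * |c₀|) (x / (1 - x)) := by
    intro x hx
    obtain ⟨h0, h1, h2, h3, h4⟩ := hE (Finset.mem_coe.2 hx)
    set γ : ℚ⟮x⟯ := IntermediateField.AdjoinSimple.gen ℚ x with hγ
    have hγx : (γ : AlgebraicClosure ℚ) = x := IntermediateField.AdjoinSimple.coe_gen ℚ x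
    have hγ0 : γ ≠ 0 := by
      intro h
      apply h0
      rw [← hγx, h]
      rfl
    have hγ1 : γ ≠ 1 := by
      intro h
      apply h1
      rw [← hγx, h]
      rfl
    have h5 : height (pt x) ≤ Real.log B := by
      rw [← Real.log_exp (height (pt x))]
      exact Real.log_le_log (Real.exp_pos _) h3
    have h6 : (n : ℝ) * height (pt x) ≤ X := mul_le_mul_of_nonneg_left h5 hn0.le
    have h7 : (n : ℝ) * conductor (pt x) ≤ t * X + n * |c₀| := by
      have a1 : conductor (pt x) ≤ t * Real.log B + |c₀| := by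
        have := mul_le_mul_of_nonneg_left h5 ht
        have := le_abs_self c₀
        linarith
      have a2 := mul_le_mul_of_nonneg_left a1 hn0.le
      rw [hX]
      linarith
    have h8 := good_of ℚ⟮x⟯ γ h2 hγ0 hγ1 h6 h7
    rwa [hγx] at h8
  rw [← Finset.card_image_of_injOn (inj_frac E hE1)]
  refine (hfew X (t * X + n * |c₀|) _ hX0 ?_).trans (le_of_eq ?_)
  · intro y hy
    obtain ⟨x, hx, rfl⟩ := Finset.mem_image.1 hy
    exact hgood x hx
  · rw [Real.rpow_def_of_pos hB0, mul_assoc D, ← Real.exp_add]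
    congr 2
    have h1 : ((n - 2 : ℕ) : ℝ) = (n : ℝ) - 2 := by
      rw [Nat.cast_sub hn]
      norm_num
    rw [h1, hX]
    field_simp
    ring

theorem lower (n : ℕ) (hn : 2 ≤ n) {t : ℝ} (ht0 : 0 < t) (ht3 : t ≤ 3) (c₀ : ℝ) :
    ∃ c B₀ : ℝ, 0 < c ∧ ∀ B : ℝ, B₀ ≤ B →
      c * B ^ ((n : ℝ) * (n - 2 + t)) ≤ ((Exc n t c₀ B).ncard : ℝ) := by
  classical
  have hn0 : (0 : ℝ) < n := by exact_mod_cast (by omega : 0 < n)
  have hn2 : (2 : ℝ) ≤ n := by exact_mod_cast hn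
  obtain ⟨c, M, hc, hM, hmany⟩ := many n hn
  obtain ⟨C1, hfin⟩ := upper n hn ht0.le c₀ one_pos
  set κ : ℝ := min (Real.exp ((n * c₀ - t * c - c) / 3)) 1 with hκ
  have hκ0 : 0 < κ := lt_min (Real.exp_pos _) one_pos
  have hκ1 : κ ≤ 1 := min_le_right _ _
  have hκe : κ ≤ Real.exp ((n * c₀ - t * c - c) / 3) := min_le_left _ _
  set T : ℝ := (10 / κ) ^ (3 / t) with hT
  have hT1 : 1 ≤ T := by
    apply Real.one_le_rpow _ (by positivity)
    rw [le_div_iff₀ hκ0]
    linarith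
  refine ⟨(κ / 20) ^ 3 * (Real.exp (-c) / 2) ^ ((n : ℝ) - 2 + t) / M, 2 * Real.exp c * T,
    by positivity, ?_⟩
  intro B hB
  have hec : 1 ≤ Real.exp c := Real.one_le_exp hc
  have hB1 : 1 ≤ B := by nlinarith
  have hB0 : 0 < B := by linarith
  set Z : ℝ := Real.exp (-c) * B ^ n with hZ
  have hBn : B ≤ B ^ n := by
    calc B = B ^ 1 := (pow_one B).symm
      _ ≤ B ^ n := pow_le_pow_right₀ hB1 (by omega)
  have hZ2 : 2 * T ≤ Z := by
    have h1 : Real.exp (-c) * (2 * Real.exp c * T) ≤ Real.exp (-c) * B ^ n :=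
      mul_le_mul_of_nonneg_left (hB.trans hBn) (Real.exp_pos _).le
    have h2 : Real.exp (-c) * (2 * Real.exp c * T) = 2 * T := by
      have : Real.exp (-c) * Real.exp c = 1 := by rw [← Real.exp_add]; simp
      linear_combination (2 * T) * this
    rw [hZ]
    linarith
  have hZ0 : 0 < Z := by positivity
  set H : ℕ := ⌊Z⌋₊ with hH
  have hHZ : (H : ℝ) ≤ Z := Nat.floor_le hZ0.le
  have hZH : Z / 2 ≤ H := by
    have := Nat.lt_floor_add_one Z
    rw [← hH] at this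
    linarith
  have hHT : T ≤ H := by linarith
  have hH1 : (1 : ℝ) ≤ H := hT1.trans hHT
  have hH0 : (0 : ℝ) < H := by linarith
  set V : ℝ := κ * (H : ℝ) ^ (t / 3) / 10 with hV
  have hV1 : 1 ≤ V := by
    have h1 : T ^ (t / 3) ≤ (H : ℝ) ^ (t / 3) :=
      Real.rpow_le_rpow (by linarith) hHT (by positivity)
    have h2 : T ^ (t / 3) = 10 / κ := by
      rw [hT, ← Real.rpow_mul (by positivity)]
      have : 3 / t * (t / 3) = 1 := by field_simp
      rw [this, Real.rpow_one]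
    rw [h2] at h1
    rw [hV, le_div_iff₀ (by norm_num), one_mul]
    calc (10 : ℝ) = κ * (10 / κ) := by field_simp
      _ ≤ κ * (H : ℝ) ^ (t / 3) := mul_le_mul_of_nonneg_left h1 hκ0.le
  set U : ℕ := ⌊V⌋₊ with hU
  have hUV : (U : ℝ) ≤ V := Nat.floor_le (by linarith)
  have hVU : V / 2 ≤ U := by
    have := Nat.lt_floor_add_one V
    rw [← hU] at this
    have h1 : 1 ≤ U := Nat.le_floor (by exact_mod_cast hV1)
    have h2 : (1 : ℝ) ≤ U := by exact_mod_cast h1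
    linarith
  have hU0 : (0 : ℝ) < U := by linarith
  have h10 : ((10 * U : ℕ) : ℝ) ≤ κ * (H : ℝ) ^ (t / 3) := by
    push_cast
    rw [hV] at hUV
    linarith
  have hHt : (H : ℝ) ^ (t / 3) ≤ H := by
    calc (H : ℝ) ^ (t / 3) ≤ (H : ℝ) ^ (1 : ℝ) :=
          Real.rpow_le_rpow_of_exponent_le hH1 (by linarith)
      _ = H := Real.rpow_one _
  have hUH : 10 * U ≤ H := by
    have h1 : ((10 * U : ℕ) : ℝ) ≤ (H : ℝ) := by
      refine h10.trans ?_
      have : 0 < (H : ℝ) ^ (t / 3) := Real.rpow_pos_of_pos hH0 _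
      nlinarith
    exact_mod_cast h1
  obtain ⟨E, hE, hcard⟩ := hmany H U hUH
  have hlogU : Real.log ((10 * U : ℕ) : ℝ) ≤ (n * c₀ - t * c - c) / 3 + t / 3 * Real.log H := by
    have h1 : (0 : ℝ) < ((10 * U : ℕ) : ℝ) := by push_cast; linarith
    have h2 := Real.log_le_log h1 h10
    rw [Real.log_mul hκ0.ne' (Real.rpow_pos_of_pos hH0 _).ne', Real.log_rpow hH0] at h2
    have h3 : Real.log κ ≤ (n * c₀ - t * c - c) / 3 := by
      rw [← Real.log_exp ((n * c₀ - t * c - c) / 3)]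
      exact Real.log_le_log hκ0 hκe
    linarith
  have hlogH : Real.log H + c ≤ n * Real.log B := by
    have h1 := Real.log_le_log hH0 hHZ
    rw [hZ, Real.log_mul (Real.exp_pos _).ne' (pow_pos hB0 n).ne', Real.log_exp,
      Real.log_pow] at h1
    linarith
  have hsub : (E : Set (AlgebraicClosure ℚ)) ⊆ Exc n t c₀ B := by
    intro x hx
    obtain ⟨x0, x1, x2, -, x3, x4, x5⟩ := hE x (Finset.mem_coe.1 hx)
    refine ⟨x0, x1, x2, ?_, ?_⟩
    · have h1 : height (pt x) ≤ Real.log B := by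
        have h2 : (n : ℝ) * height (pt x) ≤ n * Real.log B := x3.trans hlogH
        exact le_of_mul_le_mul_left h2 hn0
      calc Real.exp (height (pt x)) ≤ Real.exp (Real.log B) := Real.exp_le_exp.2 h1
        _ = B := Real.exp_log hB0
    · have h2 : (n : ℝ) * conductor (pt x) ≤ n * (t * height (pt x) + c₀) := by
        have h3 := mul_le_mul_of_nonneg_left x4 ht0.le
        linarith
      exact le_of_mul_le_mul_left h2 hn0
  have hEc : (E.card : ℝ) ≤ ((Exc n t c₀ B).ncard : ℝ) := by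
    have h1 := Set.ncard_le_ncard hsub (hfin B hB1).1
    rw [Set.ncard_coe_finset] at h1
    exact_mod_cast h1
  have hmain : (κ / 20) ^ 3 * (Real.exp (-c) / 2) ^ ((n : ℝ) - 2 + t) *
      B ^ ((n : ℝ) * (n - 2 + t)) ≤ (U : ℝ) ^ 3 * (H : ℝ) ^ (n - 2) := by
    have h1 : κ * (H : ℝ) ^ (t / 3) / 20 ≤ U := by
      rw [hV] at hVU
      linarith
    have h2 : (κ * (H : ℝ) ^ (t / 3) / 20) ^ 3 ≤ (U : ℝ) ^ 3 :=
      pow_le_pow_left₀ (by positivity) h1 3
    have h3 : (κ * (H : ℝ) ^ (t / 3) / 20) ^ 3 = (κ / 20) ^ 3 * (H : ℝ) ^ t := by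
      have h4 : ((H : ℝ) ^ (t / 3)) ^ 3 = (H : ℝ) ^ t := by
        rw [← Real.rpow_natCast, ← Real.rpow_mul hH0.le]
        congr 1
        push_cast
        ring
      rw [← h4]
      ring
    have h5 : (H : ℝ) ^ t * (H : ℝ) ^ (n - 2) = (H : ℝ) ^ ((n : ℝ) - 2 + t) := by
      rw [← Real.rpow_natCast (H : ℝ) (n - 2), ← Real.rpow_add hH0]
      congr 1
      rw [Nat.cast_sub hn]
      push_cast
      ring
    have h6 : (Real.exp (-c) / 2) ^ ((n : ℝ) - 2 + t) * B ^ ((n : ℝ) * (n - 2 + t)) ≤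
        (H : ℝ) ^ ((n : ℝ) - 2 + t) := by
      have h7 : B ^ ((n : ℝ) * (n - 2 + t)) = (B ^ n) ^ ((n : ℝ) - 2 + t) := by
        rw [← Real.rpow_natCast, ← Real.rpow_mul hB0.le]
      rw [h7, ← Real.mul_rpow (by positivity) (by positivity)]
      apply Real.rpow_le_rpow (by positivity) _ (by linarith)
      rw [hZ] at hZH
      linarith
    calc (κ / 20) ^ 3 * (Real.exp (-c) / 2) ^ ((n : ℝ) - 2 + t) * B ^ ((n : ℝ) * (n - 2 + t))
        = (κ / 20) ^ 3 * ((Real.exp (-c) / 2) ^ ((n : ℝ) - 2 + t) *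
            B ^ ((n : ℝ) * (n - 2 + t))) := by ring
      _ ≤ (κ / 20) ^ 3 * (H : ℝ) ^ ((n : ℝ) - 2 + t) :=
          mul_le_mul_of_nonneg_left h6 (by positivity)
      _ = (κ * (H : ℝ) ^ (t / 3) / 20) ^ 3 * (H : ℝ) ^ (n - 2) := by
          rw [h3, ← h5]
          ring
      _ ≤ (U : ℝ) ^ 3 * (H : ℝ) ^ (n - 2) :=
          mul_le_mul_of_nonneg_right h2 (by positivity)
  rw [div_mul_eq_mul_div, div_le_iff₀ hM]
  calc (κ / 20) ^ 3 * (Real.exp (-c) / 2) ^ ((n : ℝ) - 2 + t) * B ^ ((n : ℝ) * (n - 2 + t))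
      ≤ (U : ℝ) ^ 3 * (H : ℝ) ^ (n - 2) := hmain
    _ ≤ M * E.card := hcard
    _ ≤ ((Exc n t c₀ B).ncard : ℝ) * M := by
        rw [mul_comm]
        exact mul_le_mul_of_nonneg_right hEc hM.le

/-- the exponent -/
theorem exponent (n : ℕ) (hn : 2 ≤ n) {t : ℝ} (ht0 : 0 < t) (ht3 : t ≤ 3) (c₀ : ℝ) :
    Tendsto (fun B : ℝ => Real.log ((Exc n t c₀ B).ncard : ℝ) / Real.log B) atTop
      (𝓝 ((n : ℝ) * (n - 2 + t))) := by
  obtain ⟨c, B₀, hc, hlow⟩ := lower n hn ht0 ht3 c₀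
  have hn2 : (2 : ℝ) ≤ n := by exact_mod_cast hn
  rw [Metric.tendsto_atTop]
  intro ε hε
  obtain ⟨C, hup⟩ := upper n hn ht0.le c₀ (δ := ε / 2) (by positivity)
  have hlog : Tendsto (fun B : ℝ => Real.log B) atTop atTop := Real.tendsto_log_atTop
  have h1 : ∀ᶠ B : ℝ in atTop, (|Real.log c| + |Real.log (max C 1)| + 1) * (4 / ε) < Real.log B :=
    hlog.eventually_gt_atTop _
  have h2 : ∀ᶠ B : ℝ in atTop, max B₀ 2 ≤ B := eventually_ge_atTop _
  obtain ⟨N, hN⟩ := Filter.eventually_atTop.1 (h1.and h2)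
  refine ⟨N, fun B hB => ?_⟩
  obtain ⟨h3, h4⟩ := hN B hB
  have hB2 : 2 ≤ B := (le_max_right _ _).trans h4
  have hB0 : 0 < B := by linarith
  have hlB : 0 < Real.log B := Real.log_pos (by linarith)
  have h5 := hlow B ((le_max_left _ _).trans h4)
  obtain ⟨-, h6⟩ := hup B (by linarith)
  have hpow : 0 < B ^ ((n : ℝ) * (n - 2 + t)) := Real.rpow_pos_of_pos hB0 _
  have hN0 : (0 : ℝ) < ((Exc n t c₀ B).ncard : ℝ) := lt_of_lt_of_le (by positivity) h5
  have h7 : Real.log c + (n : ℝ) * (n - 2 + t) * Real.log B ≤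
      Real.log ((Exc n t c₀ B).ncard : ℝ) := by
    rw [← Real.log_rpow hB0, ← Real.log_mul hc.ne' hpow.ne']
    exact Real.log_le_log (by positivity) h5
  have h8 : Real.log ((Exc n t c₀ B).ncard : ℝ) ≤ Real.log (max C 1) +
      ((n : ℝ) * (n - 2 + t) + ε / 2) * Real.log B := by
    have h9 : (0 : ℝ) < max C 1 := lt_max_of_lt_right one_pos
    rw [← Real.log_rpow hB0, ← Real.log_mul h9.ne' (Real.rpow_pos_of_pos hB0 _).ne']
    refine Real.log_le_log hN0 (h6.trans ?_)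
    exact mul_le_mul_of_nonneg_right (le_max_left _ _) (Real.rpow_pos_of_pos hB0 _).le
  have a1 := neg_abs_le (Real.log c)
  have a2 := le_abs_self (Real.log (max C 1))
  have a3 := abs_nonneg (Real.log c)
  have a4 := abs_nonneg (Real.log (max C 1))
  have h10 : |Real.log c| + |Real.log (max C 1)| + 1 < ε / 4 * Real.log B := by
    have : (|Real.log c| + |Real.log (max C 1)| + 1) * (4 / ε) * (ε / 4) <
        Real.log B * (ε / 4) := mul_lt_mul_of_pos_right h3 (by positivity)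
    have e : (|Real.log c| + |Real.log (max C 1)| + 1) * (4 / ε) * (ε / 4) =
        |Real.log c| + |Real.log (max C 1)| + 1 := by field_simp
    rw [e] at this
    linarith
  have hεl : 0 < ε * Real.log B := by positivity
  rw [Real.dist_eq, abs_lt]
  constructor
  · rw [lt_sub_iff_add_lt, lt_div_iff₀ hlB]
    nlinarith
  · rw [sub_lt_iff_lt_add, div_lt_iff₀ hlB]
    nlinarith

end Pool.Agent.T6.H79.ABC
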