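import Pool.Agent.T6.H79.ABC.Fam

/-!
# Counting the parameters
-/

set_option autoImplicit false

namespace Pool.Agent.T6.H79.ABC

open Finset

/-- the numbers `10 u + 1` divisible by `g` -/
theorem card_dvd (U g : ℕ) (hg : 0 < g) :
    (((range U).filter fun u => g ∣ 10 * u + 1).card : ℝ) * g ≤ 11 * U := by
  set A := (range U).filter fun u => g ∣ 10 * u + 1 with hA
  rcases A.eq_empty_or_nonempty with h | ⟨u0, hu0⟩
  · rw [h]
    simp
  have h0 := Finset.mem_filter.1 hu0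
  have hgU : g ≤ 10 * U := by
    have h1 := Nat.le_of_dvd (by omega) h0.2
    have h2 := Finset.mem_range.1 h0.1
    omega
  have hcop : Nat.Coprime g 10 := by
    have h1 : Nat.gcd g 10 ∣ 10 * u0 + 1 := (Nat.gcd_dvd_left g 10).trans h0.2
    have h2 : Nat.gcd g 10 ∣ 10 * u0 := (Nat.gcd_dvd_right g 10).mul_right _
    exact Nat.dvd_one.1 ((Nat.dvd_add_right h2).1 h1)
  have hcard : A.card ≤ U / g + 1 := by
    have h1 : A.card ≤ (range (U / g + 1)).card := by
      apply Finset.card_le_card_of_injOn (fun u => u / g)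
      · intro u hu
        have h2 := Finset.mem_range.1 (Finset.mem_filter.1 (Finset.mem_coe.1 hu)).1
        exact Finset.mem_coe.2 (Finset.mem_range.2 (Nat.lt_succ_of_le (Nat.div_le_div_right h2.le)))
      · intro u hu v hv huv
        have h2 := (Finset.mem_filter.1 (Finset.mem_coe.1 hu)).2
        have h3 := (Finset.mem_filter.1 (Finset.mem_coe.1 hv)).2
        simp only at huv
        have h4 : u ≡ v [MOD g] := by
          have h5 : 10 * u + 1 ≡ 10 * v + 1 [MOD g] :=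
            ((Nat.modEq_zero_iff_dvd).2 h2).trans ((Nat.modEq_zero_iff_dvd).2 h3).symm
          have h6 : 10 * u ≡ 10 * v [MOD g] := Nat.ModEq.add_right_cancel' 1 h5
          exact Nat.ModEq.cancel_left_of_coprime hcop h6
        have h7 := Nat.div_add_mod u g
        have h8 := Nat.div_add_mod v g
        have h9 : u % g = v % g := h4
        rw [← h7, ← h8, huv, h9]
    rwa [Finset.card_range] at h1
  have h1 : A.card * g ≤ 11 * U := by
    have h2 : U / g * g ≤ U := Nat.div_mul_le_self U g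
    calc A.card * g ≤ (U / g + 1) * g := Nat.mul_le_mul_right g hcard
      _ = U / g * g + g := by ring
      _ ≤ 11 * U := by omega
  exact_mod_cast h1

/-- the good pairs -/
def goodP (G U : ℕ) : Finset (ℕ × ℕ) :=
  (range U ×ˢ range U).filter fun p => Nat.gcd (10 * p.1 + 1) (10 * p.2 + 1) ≤ G

theorem card_goodP {G : ℕ} (hG0 : 0 < G) (hG : (242 : ℝ) ≤ G) (U : ℕ) :
    (U : ℝ) ^ 2 / 2 ≤ (goodP G U).card := by
  set bad : Finset (ℕ × ℕ) :=
    (range U ×ˢ range U).filter fun p => ¬ Nat.gcd (10 * p.1 + 1) (10 * p.2 + 1) ≤ G with hbad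
  set A : ℕ → Finset ℕ := fun g => (range U).filter fun u => g ∣ 10 * u + 1 with hA
  have hsub : bad ⊆ (Ioc G (10 * U)).biUnion fun g => A g ×ˢ A g := by
    intro p hp
    obtain ⟨h1, h2⟩ := Finset.mem_filter.1 hp
    obtain ⟨h3, h4⟩ := Finset.mem_product.1 h1
    have h5 := Finset.mem_range.1 h3
    refine Finset.mem_biUnion.2 ⟨Nat.gcd (10 * p.1 + 1) (10 * p.2 + 1), Finset.mem_Ioc.2
      ⟨not_le.1 h2, ?_⟩, Finset.mem_product.2 ⟨Finset.mem_filter.2 ⟨h3, Nat.gcd_dvd_left _ _⟩,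
        Finset.mem_filter.2 ⟨h4, Nat.gcd_dvd_right _ _⟩⟩⟩
    have h6 := Nat.le_of_dvd (by omega) (Nat.gcd_dvd_left (10 * p.1 + 1) (10 * p.2 + 1))
    omega
  have hb : (bad.card : ℝ) ≤ (U : ℝ) ^ 2 / 2 := by
    have h1 : (bad.card : ℝ) ≤ ∑ g ∈ Ioc G (10 * U), ((A g).card : ℝ) * (A g).card := by
      have h2 := (Finset.card_le_card hsub).trans Finset.card_biUnion_le
      simp only [Finset.card_product] at h2
      exact_mod_cast h2
    refine h1.trans ?_
    have h2 : ∑ g ∈ Ioc G (10 * U), ((A g).card : ℝ) * (A g).card ≤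
        ∑ g ∈ Ioc G (10 * U), 121 * (U : ℝ) ^ 2 * ((g : ℝ) ^ 2)⁻¹ := by
      refine Finset.sum_le_sum fun g hg => ?_
      have hg0 : 0 < g := by
        have := (Finset.mem_Ioc.1 hg).1
        omega
      have hgr : (0 : ℝ) < g := by exact_mod_cast hg0
      have h3 := card_dvd U g hg0
      have h4 : ((A g).card : ℝ) ≤ 11 * U / g := by
        rw [le_div_iff₀ hgr]
        exact h3
      have h5 : (0 : ℝ) ≤ (A g).card := Nat.cast_nonneg _
      calc ((A g).card : ℝ) * (A g).card ≤ (11 * U / g) * (11 * U / g) :=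
            mul_le_mul h4 h4 h5 (h5.trans h4)
        _ = 121 * (U : ℝ) ^ 2 * ((g : ℝ) ^ 2)⁻¹ := by
            field_simp
            ring
    refine h2.trans ?_
    rw [← Finset.mul_sum]
    rcases le_or_gt G (10 * U) with h | h
    · have h3 := sum_Ioc_inv_sq_le_sub (α := ℝ) (k := G) (n := 10 * U) (by omega) h
      have h4 : (0 : ℝ) ≤ ((10 * U : ℕ) : ℝ)⁻¹ := by positivity
      have h5 : ∑ g ∈ Ioc G (10 * U), ((g : ℝ) ^ 2)⁻¹ ≤ 1 / 242 := by
        have : (G : ℝ)⁻¹ ≤ 1 / 242 := by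
          rw [inv_eq_one_div]
          exact one_div_le_one_div_of_le (by norm_num) hG
        linarith
      calc 121 * (U : ℝ) ^ 2 * ∑ g ∈ Ioc G (10 * U), ((g : ℝ) ^ 2)⁻¹
          ≤ 121 * (U : ℝ) ^ 2 * (1 / 242) := mul_le_mul_of_nonneg_left h5 (by positivity)
        _ = (U : ℝ) ^ 2 / 2 := by ring
    · rw [Finset.Ioc_eq_empty (by omega), Finset.sum_empty, mul_zero]
      positivity
  have htot : ((goodP G U).card : ℝ) + bad.card = (U : ℝ) ^ 2 := by
    have h1 := Finset.card_filter_add_card_filter_not (s := range U ×ˢ range U)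
      (fun p => Nat.gcd (10 * p.1 + 1) (10 * p.2 + 1) ≤ G)
    rw [Finset.card_product, Finset.card_range] at h1
    have h2 : (((goodP G U).card + bad.card : ℕ) : ℝ) = ((U * U : ℕ) : ℝ) := by
      rw [← h1]
      rfl
    push_cast at h2
    rw [h2]
    ring
  linarith

/-- the exponent of five -/
def kk (H u : ℕ) : ℕ := Nat.log 5 (H / (10 * u + 1))

/-- the constant coefficient -/
def XX (H u : ℕ) : ℕ := 2 * 5 ^ kk H u * (10 * u + 1)

theorem XX_le {H u : ℕ} (h : 10 * u + 1 ≤ H) : XX H u ≤ 2 * H := by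
  have h1 : H / (10 * u + 1) ≠ 0 := by
    have := Nat.div_pos h (by omega : 0 < 10 * u + 1)
    omega
  have h2 : 5 ^ kk H u ≤ H / (10 * u + 1) := Nat.pow_log_le_self 5 h1
  have h3 : 5 ^ kk H u * (10 * u + 1) ≤ H :=
    (Nat.mul_le_mul_right _ h2).trans (Nat.div_mul_le_self _ _)
  unfold XX
  rw [mul_assoc]
  omega

theorem le_XX {H u : ℕ} : H ≤ 5 * (5 ^ kk H u * (10 * u + 1)) := by
  have h2 : H / (10 * u + 1) < 5 ^ (kk H u + 1) := Nat.lt_pow_succ_log_self (by norm_num) _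
  have h3 := (Nat.div_lt_iff_lt_mul (by omega : 0 < 10 * u + 1)).1 h2
  rw [pow_succ] at h3
  have : 5 ^ kk H u * 5 * (10 * u + 1) = 5 * (5 ^ kk H u * (10 * u + 1)) := by ring
  omega

theorem XX_mod (H u : ℕ) : XX H u % 4 = 2 := by
  have h1 : Odd (5 ^ kk H u * (10 * u + 1)) := by
    apply Odd.mul
    · exact Odd.pow (by decide)
    · exact ⟨5 * u, by ring⟩
  obtain ⟨j, hj⟩ := h1
  unfold XX
  rw [mul_assoc, hj]
  omega

theorem XX_inj {H u v : ℕ} (h : XX H u = XX H v) : u = v := by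
  unfold XX at h
  have h1 : 5 ^ kk H u * (10 * u + 1) = 5 ^ kk H v * (10 * v + 1) := by
    rw [mul_assoc, mul_assoc] at h
    exact Nat.eq_of_mul_eq_mul_left (by norm_num) h
  have key : ∀ a b x y : ℕ, a ≤ b → 5 ^ a * (10 * x + 1) = 5 ^ b * (10 * y + 1) → x = y := by
    intro a b x y hab he
    obtain ⟨d, rfl⟩ := Nat.exists_eq_add_of_le hab
    rw [pow_add, mul_assoc] at he
    have h2 := Nat.eq_of_mul_eq_mul_left (by positivity) he
    rcases Nat.eq_zero_or_pos d with rfl | hd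
    · rw [pow_zero, one_mul] at h2
      omega
    · obtain ⟨e, rfl⟩ := Nat.exists_eq_add_of_le hd
      rw [pow_add, pow_one, mul_assoc] at h2
      omega
  rcases le_total (kk H u) (kk H v) with h2 | h2
  · exact key _ _ _ _ h2 h1
  · exact (key _ _ _ _ h2 h1.symm).symm

theorem gcd_XX (H u v : ℕ) :
    Nat.gcd (2 * 5 ^ kk H u * (10 * u + 1)) (10 * v + 1) = Nat.gcd (10 * u + 1) (10 * v + 1) := by
  apply Nat.Coprime.gcd_mul_left_cancel
  apply Nat.Coprime.mul_left
  · rw [Nat.coprime_two_left]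
    exact ⟨5 * v, by ring⟩
  · apply Nat.Coprime.pow_left
    rw [Nat.Coprime]
    have h1 : Nat.gcd 5 (10 * v + 1) ∣ 10 * v + 1 := Nat.gcd_dvd_right _ _
    have h2 : Nat.gcd 5 (10 * v + 1) ∣ 10 * v :=
      (Nat.gcd_dvd_left 5 (10 * v + 1)).trans ⟨2 * v, by ring⟩
    exact Nat.dvd_one.1 ((Nat.dvd_add_right h2).1 h1)

end Pool.Agent.T6.H79.ABC
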