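import Pool.Agent.T6.H79.ABC.Loc

/-!
# A family of integer polynomials
-/

set_option autoImplicit false

namespace Pool.Agent.T6.H79.ABC

open Polynomial Finset

/-- irreducibility by the criterion of Eisenstein, without primitivity -/
theorem irr {F : ℤ[X]} (hd : 0 < F.natDegree) (hl : ¬ (2 : ℤ) ∣ F.leadingCoeff)
    (hm : ∀ i < F.natDegree, (2 : ℤ) ∣ F.coeff i) (h0 : ¬ (4 : ℤ) ∣ F.coeff 0) :
    Irreducible (F.map (Int.castRingHom ℚ)) := by
  have hF0 : F ≠ 0 := by
    rintro rfl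
    simp at hd
  set G := F.primPart with hG
  set c := F.content with hc
  have hFG : F = C c * G := F.eq_C_content_mul_primPart
  have hc0 : c ≠ 0 := by rwa [hc, Ne, content_eq_zero_iff]
  have hGd : G.natDegree = F.natDegree := F.natDegree_primPart
  have hco : ∀ i, F.coeff i = c * G.coeff i := by
    intro i
    conv_lhs => rw [hFG]
    rw [coeff_C_mul]
  have hlead : F.leadingCoeff = c * G.leadingCoeff := by
    rw [leadingCoeff, leadingCoeff, hco, hGd]
  have hc2 : ¬ (2 : ℤ) ∣ c := fun h => hl (hlead ▸ h.mul_right _)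
  have hp2 : Prime (2 : ℤ) := Int.prime_two
  have hE : G.IsEisensteinAt (Ideal.span {(2 : ℤ)}) := by
    refine ⟨?_, ?_, ?_⟩
    · rw [Ideal.mem_span_singleton]
      intro h
      exact hl (hlead ▸ h.mul_left _)
    · intro i hi
      rw [Ideal.mem_span_singleton]
      have h1 := hm i (hGd ▸ hi)
      rw [hco] at h1
      exact (hp2.dvd_or_dvd h1).resolve_left hc2
    · rw [Ideal.span_singleton_pow, Ideal.mem_span_singleton]
      intro h
      apply h0
      rw [hco]
      have : (4 : ℤ) = 2 ^ 2 := by norm_num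
      rw [this]
      exact h.mul_left _
  have hprim : G.IsPrimitive := F.isPrimitive_primPart
  have hirr : Irreducible G := hE.irreducible
    ((Ideal.span_singleton_prime (by norm_num)).2 hp2) hprim (hGd ▸ hd)
  have hirrQ : Irreducible (G.map (Int.castRingHom ℚ)) :=
    (Polynomial.IsPrimitive.Int.irreducible_iff_irreducible_map_cast hprim).1 hirr
  have e : F.map (Int.castRingHom ℚ) = C (c : ℚ) * G.map (Int.castRingHom ℚ) := by
    conv_lhs => rw [hFG]
    rw [Polynomial.map_mul, map_C]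
    rfl
  rw [e]
  have hu : IsUnit (C (c : ℚ)) := by
    rw [isUnit_C, isUnit_iff_ne_zero]
    exact_mod_cast hc0
  exact (irreducible_isUnit_mul hu).2 hirrQ

/-- the coefficients except that of `X` -/
def cf0 (n a X0 : ℕ) (α : ℕ → ℕ) (j : ℕ) : ℤ :=
  if j = 0 then X0 else if j = n then a else 2 * α j

/-- the coefficient of `X` -/
def cf1 (n a X0 m : ℕ) (α : ℕ → ℕ) : ℤ :=
  (∑ j ∈ (range (n + 1)).erase 1, cf0 n a X0 α j * (-1) ^ j) - m

/-- the coefficients -/
def cf (n a X0 m : ℕ) (α : ℕ → ℕ) (j : ℕ) : ℤ :=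
  if j = 1 then cf1 n a X0 m α else cf0 n a X0 α j

/-- the polynomial -/
noncomputable def pl (n a X0 m : ℕ) (α : ℕ → ℕ) : ℤ[X] :=
  ∑ j ∈ range (n + 1), C (cf n a X0 m α j) * X ^ j

section

variable {n a X0 m : ℕ} {α : ℕ → ℕ}

theorem pl_coeff (j : ℕ) : (pl n a X0 m α).coeff j = if j ≤ n then cf n a X0 m α j else 0 := by
  unfold pl
  rw [finsetSum_coeff]
  simp only [coeff_C_mul_X_pow]
  rw [Finset.sum_ite_eq]
  simp only [Finset.mem_range, Nat.lt_succ_iff]

theorem cf_n (hn : 2 ≤ n) : cf n a X0 m α n = a := by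
  unfold cf cf0
  rw [if_neg (by omega), if_neg (by omega), if_pos rfl]

theorem cf_zero : cf n a X0 m α 0 = X0 := by
  unfold cf cf0
  rw [if_neg (by omega), if_pos rfl]

theorem cf_mid {j : ℕ} (h2 : 2 ≤ j) (hj : j < n) : cf n a X0 m α j = 2 * α j := by
  unfold cf cf0
  rw [if_neg (by omega), if_neg (by omega), if_neg (by omega)]

theorem pl_natDegree (hn : 2 ≤ n) (ha : 0 < a) : (pl n a X0 m α).natDegree = n := by
  apply le_antisymm
  · rw [natDegree_le_iff_coeff_eq_zero]
    intro j hj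
    rw [pl_coeff, if_neg (by omega)]
  · apply le_natDegree_of_ne_zero
    rw [pl_coeff, if_pos le_rfl, cf_n hn]
    exact_mod_cast ha.ne'

theorem pl_lead (hn : 2 ≤ n) (ha : 0 < a) : (pl n a X0 m α).leadingCoeff = a := by
  rw [leadingCoeff, pl_natDegree hn ha, pl_coeff, if_pos le_rfl, cf_n hn]

theorem pl_zero : (pl n a X0 m α).coeff 0 = X0 := by
  rw [pl_coeff, if_pos (Nat.zero_le _), cf_zero]

theorem pl_eval (hn : 2 ≤ n) : (pl n a X0 m α).eval (-1) = m := by
  unfold pl
  rw [eval_finsetSum]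
  simp only [eval_mul, eval_C, eval_pow, eval_X]
  rw [← Finset.add_sum_erase _ _ (Finset.mem_range.2 (by omega : 1 < n + 1))]
  have h1 : cf n a X0 m α 1 = cf1 n a X0 m α := by
    unfold cf
    rw [if_pos rfl]
  have h2 : ∑ j ∈ (range (n + 1)).erase 1, cf n a X0 m α j * (-1) ^ j =
      ∑ j ∈ (range (n + 1)).erase 1, cf0 n a X0 α j * (-1) ^ j := by
    refine Finset.sum_congr rfl fun j hj => ?_
    have : j ≠ 1 := Finset.ne_of_mem_erase hj
    unfold cf
    rw [if_neg this]
  rw [h1, h2]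
  unfold cf1
  ring

theorem cf0_even {j : ℕ} (hj : j ≠ n) (hX : 2 ∣ X0) : (2 : ℤ) ∣ cf0 n a X0 α j := by
  unfold cf0
  split_ifs with h1
  · exact_mod_cast hX
  · exact Dvd.intro _ rfl

theorem cf1_even (hn : 2 ≤ n) (hX : 2 ∣ X0) (ha : a % 2 = 1) (hm : m % 2 = 1) :
    (2 : ℤ) ∣ cf1 n a X0 m α := by
  unfold cf1
  have hmem : n ∈ (range (n + 1)).erase 1 :=
    Finset.mem_erase.2 ⟨by omega, Finset.mem_range.2 (by omega)⟩
  rw [← Finset.add_sum_erase _ _ hmem]
  have h1 : (2 : ℤ) ∣ ∑ j ∈ ((range (n + 1)).erase 1).erase n, cf0 n a X0 α j * (-1) ^ j := by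
    refine Finset.dvd_sum fun j hj => ?_
    exact (cf0_even (Finset.ne_of_mem_erase hj) hX).mul_right _
  have h2 : cf0 n a X0 α n = a := by
    unfold cf0
    rw [if_neg (by omega), if_pos rfl]
  rw [h2]
  have h3 : (2 : ℤ) ∣ (a : ℤ) * (-1) ^ n - m := by
    rcases neg_one_pow_eq_or ℤ n with h | h
    · rw [h]; omega
    · rw [h]; omega
  have : (a : ℤ) * (-1) ^ n + ∑ j ∈ ((range (n + 1)).erase 1).erase n,
      cf0 n a X0 α j * (-1) ^ j - m = ((a : ℤ) * (-1) ^ n - m) +
      ∑ j ∈ ((range (n + 1)).erase 1).erase n, cf0 n a X0 α j * (-1) ^ j := by ring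
  rw [this]
  exact dvd_add h3 h1

theorem pl_irr (hn : 2 ≤ n) (hX : X0 % 4 = 2) (ha : a % 2 = 1) (hm : m % 2 = 1) :
    Irreducible ((pl n a X0 m α).map (Int.castRingHom ℚ)) := by
  have ha0 : 0 < a := by omega
  have hX2 : 2 ∣ X0 := by omega
  apply irr
  · rw [pl_natDegree hn ha0]; omega
  · rw [pl_lead hn ha0]; omega
  · intro i hi
    rw [pl_natDegree hn ha0] at hi
    rw [pl_coeff, if_pos hi.le]
    unfold cf
    split_ifs with h1
    · exact cf1_even hn hX2 ha hm
    · exact cf0_even (by omega) hX2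
  · rw [pl_zero]; omega

/-- bound for the coefficients -/
theorem pl_bound (hn : 2 ≤ n) {H : ℕ} (hX : X0 ≤ 2 * H) (ha : a ≤ H) (hm : m ≤ H)
    (hα : ∀ j, α j ≤ H) (i : ℕ) : |((pl n a X0 m α).coeff i : ℝ)| ≤ (2 * n + 4) * H := by
  have hH0 : (0 : ℝ) ≤ H := Nat.cast_nonneg _
  have hn0 : (0 : ℝ) ≤ n := Nat.cast_nonneg _
  have h0 : ∀ j, |(cf0 n a X0 α j : ℝ)| ≤ 2 * H := by
    intro j
    unfold cf0
    split_ifs
    · rw [Int.cast_natCast, Nat.abs_cast]
      exact_mod_cast hX
    · rw [Int.cast_natCast, Nat.abs_cast]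
      have : (a : ℝ) ≤ H := by exact_mod_cast ha
      linarith
    · push_cast
      rw [abs_mul, Nat.abs_cast, abs_two]
      have : (α j : ℝ) ≤ H := by exact_mod_cast hα j
      linarith
  rw [pl_coeff]
  split_ifs with hi
  · unfold cf
    split_ifs with h1
    · unfold cf1
      push_cast
      refine (abs_sub _ _).trans ?_
      rw [Nat.abs_cast]
      have h2 : |∑ j ∈ (range (n + 1)).erase 1, (cf0 n a X0 α j : ℝ) * (-1) ^ j| ≤
          n * (2 * H) := by
        refine (Finset.abs_sum_le_sum_abs _ _).trans ?_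
        refine (Finset.sum_le_sum fun j _ => ?_ : _ ≤ ∑ j ∈ (range (n + 1)).erase 1,
          (2 * H : ℝ)).trans ?_
        · rw [abs_mul, abs_pow, abs_neg, abs_one, one_pow, mul_one]
          exact h0 j
        · rw [Finset.sum_const, Finset.card_erase_of_mem (Finset.mem_range.2 (by omega)),
            Finset.card_range, nsmul_eq_mul]
          exact le_of_eq (by simp)
      have h3 : (m : ℝ) ≤ H := by exact_mod_cast hm
      nlinarith
    · refine (h0 i).trans ?_
      nlinarith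
  · simp only [Int.cast_zero, abs_zero]
    positivity

end

end Pool.Agent.T6.H79.ABC
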