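import Pool.Agent.T6.H79.ABC.Root
import Pool.Agent.W222.UABC.Poly

/-!
# The ideals of a root of an integer polynomial with prescribed values at `0`, `-1` and leading
coefficient
-/

set_option autoImplicit false

namespace Pool.Agent.T6.H79.ABC

open NumberField IsDedekindDomain Polynomial Height Module Finset
open Pool.Agent.H691R3 Pool.Agent.W223.AK Pool.Agent.W222.UABC Pool.Agent.W52.AK

section

variable {K : Type} [Field K] [NumberField K]

theorem fibre_prod {p : ℕ} (hp : p.Prime) (s : Finset (Pr K)) (hs : ∀ v ∈ s, pv v = p) :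
    ∏ v ∈ s, nm v ≤ p ^ Module.finrank ℚ K := by
  classical
  have hinj : Set.InjOn (fun v : Pr K => v.asIdeal) (s : Set (Pr K)) :=
    fun a _ b _ hab => HeightOneSpectrum.ext hab
  have h1 : (∏ v ∈ s, v.asIdeal) ∣ Ideal.span {((p : ℕ) : 𝓞 K)} := by
    rw [← Finset.prod_image (f := fun I : Ideal (𝓞 K) => I) hinj]
    refine Finset.prod_primes_dvd _ ?_ ?_
    · intro I hI
      obtain ⟨v, _, rfl⟩ := Finset.mem_image.1 hI
      exact v.prime
    · intro I hI
      obtain ⟨v, hv, rfl⟩ := Finset.mem_image.1 hI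
      rw [Ideal.dvd_iff_le, Ideal.span_singleton_le_iff_mem, ← hs v hv]
      exact pv_mem v
  have h2 : (∏ v ∈ s, nm v) ∣ p ^ Module.finrank ℚ K := by
    rw [← absNorm_span_nat (K := K) p]
    have h3 := map_dvd (Ideal.absNorm (S := 𝓞 K)) h1
    rw [map_prod] at h3
    exact h3
  exact Nat.le_of_dvd (pow_pos hp.pos _) h2

theorem nm_pow (v : Pr K) : ∃ k : ℕ, nm v = pv v ^ k := by
  have h1 : Ideal.absNorm v.asIdeal ∣ Ideal.absNorm (Ideal.span {((pv v : ℕ) : 𝓞 K)}) :=
    Ideal.absNorm_dvd_absNorm_of_le ((Ideal.span_singleton_le_iff_mem _).2 (pv_mem v))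
  rw [absNorm_span_nat] at h1
  obtain ⟨k, _, hk⟩ := (Nat.dvd_prime_pow (pv_prime v)).1 h1
  exact ⟨k, hk⟩

/-- the radical of an ideal whose norm is divisible by a large power of a fixed prime -/
theorem rl_le_of_dvd {p : ℕ} (hp : p.Prime) (a : Idl K) {k : ℕ} (hk : p ^ k ∣ nn a) :
    rl a ≤ Module.finrank ℚ K * Real.log p + (Real.log (nn a) - k * Real.log p) := by
  classical
  have hsplit : nn a = (∏ v ∈ a.support.filter (fun v => pv v = p), nm v ^ a v) *
      ∏ v ∈ a.support.filter (fun v => ¬ pv v = p), nm v ^ a v :=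
    (Finset.prod_filter_mul_prod_filter_not _ _ _).symm
  set A := ∏ v ∈ a.support.filter (fun v => pv v = p), nm v ^ a v with hA
  set B := ∏ v ∈ a.support.filter (fun v => ¬ pv v = p), nm v ^ a v with hB
  have hcop : Nat.Coprime (p ^ k) B := by
    apply Nat.Coprime.pow_left
    rw [hB]
    apply Nat.Coprime.prod_right
    intro v hv
    apply Nat.Coprime.pow_right
    obtain ⟨j, hj⟩ := nm_pow v
    rw [hj]
    apply Nat.Coprime.pow_right
    exact (Nat.coprime_primes hp (pv_prime v)).2 fun h => (Finset.mem_filter.1 hv).2 h.symm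
  have hA0 : 0 < A := Finset.prod_pos fun v _ => pow_pos (Nat.pos_of_ne_zero (nm_ne_zero v)) _
  have hB0 : 0 < B := Finset.prod_pos fun v _ => pow_pos (Nat.pos_of_ne_zero (nm_ne_zero v)) _
  have hkA : p ^ k ≤ A := by
    rw [hsplit] at hk
    exact Nat.le_of_dvd hA0 (hcop.dvd_of_dvd_mul_right hk)
  have h1 : rl a = ∑ v ∈ a.support.filter (fun v => pv v = p), Real.log (Nv v) +
      ∑ v ∈ a.support.filter (fun v => ¬ pv v = p), Real.log (Nv v) :=
    (Finset.sum_filter_add_sum_filter_not _ _ _).symm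
  have h2 : ∑ v ∈ a.support.filter (fun v => pv v = p), Real.log (Nv v) ≤
      Module.finrank ℚ K * Real.log p := by
    have h3 := fibre_prod hp (a.support.filter (fun v => pv v = p))
      (fun v hv => (Finset.mem_filter.1 hv).2)
    have h4 : (0 : ℝ) < ∏ v ∈ a.support.filter (fun v => pv v = p), (nm v : ℝ) :=
      Finset.prod_pos fun v _ => by exact_mod_cast Nat.pos_of_ne_zero (nm_ne_zero v)
    have h3' : ∏ v ∈ a.support.filter (fun v => pv v = p), (nm v : ℝ) ≤
        (p : ℝ) ^ Module.finrank ℚ K := by exact_mod_cast h3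
    have h5 := Real.log_le_log h4 h3'
    rw [Real.log_prod (fun v _ => by exact_mod_cast nm_ne_zero v), Real.log_pow] at h5
    exact h5
  have h3 : ∑ v ∈ a.support.filter (fun v => ¬ pv v = p), Real.log (Nv v) ≤ Real.log B := by
    rw [hB]
    push_cast
    rw [Real.log_prod (fun v _ => by
      have := nm_ne_zero v
      positivity)]
    refine Finset.sum_le_sum fun v hv => ?_
    rw [Real.log_pow]
    have h4 : 1 ≤ a v := Nat.one_le_iff_ne_zero.2
      (Finsupp.mem_support_iff.1 (Finset.mem_filter.1 hv).1)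
    have h5 : (1 : ℝ) ≤ a v := by exact_mod_cast h4
    have h6 := (log_Nv_pos v).le
    have h7 : Real.log (Nv v) = Real.log (nm v) := rfl
    rw [← h7]
    nlinarith
  have h4 : Real.log (nn a) = Real.log A + Real.log B := by
    rw [hsplit]
    push_cast
    rw [Real.log_mul (by exact_mod_cast hA0.ne') (by exact_mod_cast hB0.ne')]
  have h5 : k * Real.log p ≤ Real.log A := by
    rw [← Real.log_pow]
    apply Real.log_le_log (by
      have := hp.pos
      positivity)
    exact_mod_cast hkA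
  linarith

theorem rl_le_log_nn (a : Idl K) : rl a ≤ Real.log (nn a) := by
  rw [log_nn]
  exact Pool.Agent.W223.AK.rl_le_len a

end

theorem local_data (n : ℕ) (hn : 0 < n) : ∃ c : ℝ, 0 ≤ c ∧
    ∀ (K : Type) [Field K] [NumberField K], Module.finrank ℚ K = n →
      ∀ (s : K) (F : ℤ[X]) (a k r m H : ℕ) (P : Fin 3 → Idl K),
        F.natDegree = n → (minpoly ℚ s).natDegree = n → aeval s F = 0 →
        F.leadingCoeff = a → F.coeff 0 = (2 * 5 ^ k * r : ℕ) → F.eval (-1) = m →
        0 < a → 0 < r → 0 < m → 0 < H → Nat.Coprime 5 a →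
        (∀ i, |(F.coeff i : ℝ)| ≤ (2 * n + 4) * H) → H ≤ 5 * (5 ^ k * r) →
        Pt s → IsP ∅ s P →
        ht s ≤ Real.log H + c ∧
        Real.log H - Real.log (Nat.gcd (2 * 5 ^ k * r) m) - c ≤ ht s ∧
        rl (P 0) + rl (P 1) + rl (P 2) ≤ Real.log r + Real.log a + Real.log m + c ∧
        a ∣ nn (P 1) * Nat.gcd (2 * 5 ^ k * r) m ∧ (nn (P 1) : ℝ) ≤ Real.exp c * a := by
  obtain ⟨c1, hc1, hht⟩ := ht_le n hn
  have hn0 : (0 : ℝ) < n := by exact_mod_cast hn
  have hl2 : 0 ≤ Real.log 2 := Real.log_nonneg (by norm_num)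
  have hl5 : 0 ≤ Real.log 5 := Real.log_nonneg (by norm_num)
  have hl3 : 0 ≤ Real.log 3 := Real.log_nonneg (by norm_num)
  have hl24 : 0 ≤ Real.log (2 * n + 4) := Real.log_nonneg (by linarith)
  set c2 : ℝ := Real.log (2 * n + 4) + c1 + n * Real.log 2 + Real.log 3 with hc2
  have hc20 : 0 ≤ c2 := by positivity
  refine ⟨3 * c2 + n * Real.log 5 + Real.log 2 + Real.log 5, by positivity, ?_⟩
  intro K _ _ hK s F a k r m H P hFn hs hroot hlead hco hev ha hr hm hH h5a hb hHb hPt hP
  have hF0 : F ≠ 0 := by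
    rintro rfl
    rw [natDegree_zero] at hFn
    omega
  set X0 : ℕ := 2 * 5 ^ k * r with hX0
  have hX0pos : 0 < X0 := by positivity
  obtain ⟨z, χ, hχm, hχd, hχr, hz, hz0, hz1, -⟩ := data hPt hP
  rw [hK] at hχd
  have hmon : (minpoly ℚ s).Monic := minpoly.monic (Algebra.IsIntegral.isIntegral (R := ℚ) s)
  have hχ : χ = minpoly ℚ s := by
    refine (Polynomial.eq_of_monic_of_dvd_of_natDegree_le hmon hχm (minpoly.dvd ℚ s hχr) ?_)
    rw [hχd, hs]
  have hmap := map_eq hFn hF0 hs hroot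
  rw [← hχ] at hmap
  have heval : ∀ x : ℤ, (F.leadingCoeff : ℚ) * χ.eval (x : ℚ) = ((F.eval x : ℤ) : ℚ) := by
    intro x
    have h1 := congrArg (fun p : ℚ[X] => p.eval (x : ℚ)) hmap
    simp only [eval_mul, eval_C] at h1
    rw [← h1]
    have h2 := Polynomial.eval_intCast_map (Int.castRingHom ℚ) F x
    simpa using h2
  have haq : (a : ℚ) ≠ 0 := by exact_mod_cast ha.ne'
  have key : ∀ x : ℤ, (a : ℤ) * z x = (nn (P 1) : ℤ) * F.eval x := by
    intro x
    have h1 := hz x
    have h2 := heval x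
    rw [hlead] at h2
    have h3 : ((a : ℤ) : ℚ) * z x = (nn (P 1) : ℚ) * ((F.eval x : ℤ) : ℚ) := by
      rw [h1, ← h2]
      push_cast
      ring
    exact_mod_cast h3
  have e0 : a * nn (P 0) = nn (P 1) * X0 := by
    have h1 := key 0
    have h2 : F.eval 0 = (X0 : ℤ) := by rw [← coeff_zero_eq_eval_zero, hco]
    rw [h2] at h1
    have h3 : 0 ≤ z 0 := by
      by_contra hcon
      have h4 : (a : ℤ) * z 0 < 0 := mul_neg_of_pos_of_neg (by exact_mod_cast ha) (not_le.1 hcon)
      rw [h1] at h4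
      have : (0 : ℤ) ≤ (nn (P 1) : ℤ) * (X0 : ℤ) := by positivity
      omega
    rw [abs_of_nonneg h3] at hz0
    rw [hz0] at h1
    exact_mod_cast h1
  have e2 : a * nn (P 2) = nn (P 1) * m := by
    have h1 := key (-1)
    rw [hev] at h1
    have h3 : 0 ≤ z (-1) := by
      by_contra hcon
      have h4 : (a : ℤ) * z (-1) < 0 := mul_neg_of_pos_of_neg (by exact_mod_cast ha) (not_le.1 hcon)
      rw [h1] at h4
      have : (0 : ℤ) ≤ (nn (P 1) : ℤ) * (m : ℤ) := by positivity
      omega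
    rw [abs_of_nonneg h3] at hz1
    rw [hz1] at h1
    exact_mod_cast h1
  have hn0p := nn_pos (P 0)
  have hn1p := nn_pos (P 1)
  have hn2p := nn_pos (P 2)
  have hn0r : (0 : ℝ) < nn (P 0) := by exact_mod_cast hn0p
  have hn1r : (0 : ℝ) < nn (P 1) := by exact_mod_cast hn1p
  have hn2r : (0 : ℝ) < nn (P 2) := by exact_mod_cast hn2p
  have har : (0 : ℝ) < a := by exact_mod_cast ha
  have hrr : (0 : ℝ) < r := by exact_mod_cast hr
  have hmr : (0 : ℝ) < m := by exact_mod_cast hm
  have hHr : (0 : ℝ) < H := by exact_mod_cast hH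
  have hXr : (0 : ℝ) < X0 := by exact_mod_cast hX0pos
  have hdvd : a ∣ nn (P 1) * Nat.gcd X0 m := by
    rw [← Nat.gcd_mul_left]
    exact Nat.dvd_gcd ⟨_, e0.symm⟩ ⟨_, e2.symm⟩
  -- the upper bound for the height
  have hup : ht s ≤ Real.log H + (Real.log (2 * n + 4) + c1) := by
    have h1 := hht K hK s F ((2 * n + 4) * H) hFn hF0 hs hroot hb
    rw [Real.log_mul (by positivity) hHr.ne'] at h1
    linarith
  have hlen : ∀ l, Real.log (nn (P l)) ≤ ht s + n * Real.log 2 := by
    intro l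
    rw [log_nn]
    have := len_le hPt hP l
    rw [cS_empty, hK] at this
    exact this
  have l0 : Real.log a + Real.log (nn (P 0)) = Real.log (nn (P 1)) + Real.log X0 := by
    rw [← Real.log_mul har.ne' hn0r.ne', ← Real.log_mul hn1r.ne' hXr.ne']
    congr 1
    exact_mod_cast e0
  have l2 : Real.log a + Real.log (nn (P 2)) = Real.log (nn (P 1)) + Real.log m := by
    rw [← Real.log_mul har.ne' hn2r.ne', ← Real.log_mul hn1r.ne' hmr.ne']
    congr 1
    exact_mod_cast e2
  have lX : Real.log X0 = Real.log 2 + k * Real.log 5 + Real.log r := by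
    rw [hX0]
    push_cast
    rw [Real.log_mul (by positivity) hrr.ne', Real.log_mul (by norm_num) (by positivity),
      Real.log_pow]
  have hHX : Real.log H ≤ Real.log 3 + Real.log X0 := by
    rw [← Real.log_mul (by norm_num) hXr.ne']
    apply Real.log_le_log hHr
    have h1 : (H : ℝ) ≤ 5 * (5 ^ k * r) := by exact_mod_cast hHb
    have h2 : (X0 : ℝ) = 2 * 5 ^ k * r := by rw [hX0]; push_cast; ring
    rw [h2]
    have h3 : (0 : ℝ) < 5 ^ k * r := by positivity
    nlinarith
  have l1 : Real.log (nn (P 1)) ≤ Real.log a + c2 := by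
    have := hlen 0
    linarith
  have hg0 : 0 < Nat.gcd X0 m := Nat.gcd_pos_of_pos_left _ hX0pos
  have hgr : (0 : ℝ) < Nat.gcd X0 m := by exact_mod_cast hg0
  have l3 : Real.log a ≤ Real.log (nn (P 1)) + Real.log (Nat.gcd X0 m) := by
    rw [← Real.log_mul hn1r.ne' hgr.ne']
    apply Real.log_le_log har
    exact_mod_cast Nat.le_of_dvd (Nat.mul_pos hn1p hg0) hdvd
  have h5k : 5 ^ k ∣ nn (P 0) := by
    have h1 : 5 ^ k ∣ a * nn (P 0) := by
      rw [e0, hX0]
      exact Dvd.intro (nn (P 1) * 2 * r) (by ring)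
    exact (Nat.Coprime.pow_left k h5a).dvd_of_dvd_mul_left h1
  have r0 := rl_le_of_dvd (p := 5) (by norm_num) (P 0) h5k
  have r1 := rl_le_log_nn (P 1)
  have r2 := rl_le_log_nn (P 2)
  rw [hK] at r0
  push_cast at r0
  have hnl2 : 0 ≤ n * Real.log 2 := by positivity
  have hnl5 : 0 ≤ n * Real.log 5 := by positivity
  refine ⟨by linarith, ?_, by linarith, hdvd, ?_⟩
  · have := hlen 0
    linarith
  · rw [← Real.exp_log har, ← Real.exp_log hn1r, ← Real.exp_add]
    apply Real.exp_le_exp.2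
    linarith

end Pool.Agent.T6.H79.ABC
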