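import Pool.Agent.T6.H79.ABC.Pts

/-!
# Many points
-/

set_option autoImplicit false

namespace Pool.Agent.T6.H79.ABC

open NumberField Polynomial Module Finset
open Pool.Agent.W222.UABC
open scoped IntermediateField

/-- extension of the coefficients -/
def ext (n : ℕ) (α : Fin (n - 2) → ℕ) (j : ℕ) : ℕ :=
  if h : 2 ≤ j ∧ j < n then α ⟨j - 2, by omega⟩ else 0

theorem ext_val {n : ℕ} (α : Fin (n - 2) → ℕ) (i : Fin (n - 2)) : ext n α (i + 2) = α i := by
  unfold ext
  have h : 2 ≤ (i : ℕ) + 2 ∧ (i : ℕ) + 2 < n := by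
    have := i.2
    omega
  rw [dif_pos h]
  congr 1

/-- the parameters -/
def Par (n G U H : ℕ) : Finset ((ℕ × ℕ) × (ℕ × (Fin (n - 2) → ℕ))) :=
  goodP G U ×ˢ (range U ×ˢ Fintype.piFinset fun _ : Fin (n - 2) => range H)

theorem many (n : ℕ) (hn : 2 ≤ n) : ∃ c M : ℝ, 0 ≤ c ∧ 0 < M ∧
    ∀ (H U : ℕ), 10 * U ≤ H → ∃ E : Finset (AlgebraicClosure ℚ),
      (∀ x ∈ E, x ≠ 0 ∧ x ≠ 1 ∧ finrank ℚ ℚ⟮x⟯ = n ∧ 0 < U ∧
        (n : ℝ) * height (pt x) ≤ Real.log H + c ∧ Real.log H - c ≤ (n : ℝ) * height (pt x) ∧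
        (n : ℝ) * conductor (pt x) ≤ 3 * Real.log ((10 * U : ℕ) : ℝ) + c) ∧
      (U : ℝ) ^ 3 * (H : ℝ) ^ (n - 2) ≤ M * E.card := by
  classical
  obtain ⟨G, hG⟩ : ∃ G : ℕ, G = 242 := ⟨_, rfl⟩
  have hG0 : 0 < G := by omega
  have hGr : (242 : ℝ) ≤ G := by rw [hG]; norm_num
  clear hG
  obtain ⟨c, hc, hpt⟩ := point n hn G hG0
  set E0 : ℕ := ⌊Real.exp c * G⌋₊ with hE0
  set M0 : ℕ := (G + 1) * (E0 + 1) with hM0
  refine ⟨c, 2 * M0, hc, by positivity, ?_⟩
  intro H U hUH
  have hex : ∀ θ : (ℕ × ℕ) × (ℕ × (Fin (n - 2) → ℕ)), ∃ (x : AlgebraicClosure ℚ) (ge : ℕ × ℕ),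
      θ ∈ Par n G U H → (x ≠ 0 ∧ x ≠ 1 ∧ finrank ℚ ℚ⟮x⟯ = n ∧ 0 < U ∧
        (n : ℝ) * height (pt x) ≤ Real.log H + c ∧ Real.log H - c ≤ (n : ℝ) * height (pt x) ∧
        (n : ℝ) * conductor (pt x) ≤ 3 * Real.log ((10 * U : ℕ) : ℝ) + c) ∧
        (pl n (10 * θ.2.1 + 1) (XX H θ.1.1) (10 * θ.1.2 + 1) (ext n θ.2.2)).map
          (Int.castRingHom ℚ) =
          C ((10 * θ.2.1 + 1 : ℕ) : ℚ) * minpoly ℚ (x / (1 - x)) ∧
        ge ∈ range (G + 1) ×ˢ range (E0 + 1) ∧ 0 < ge.2 ∧
          ((10 * θ.2.1 + 1 : ℕ) : ℝ) * ge.2 = nu x * ge.1 := by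
    intro θ
    by_cases hθ : θ ∈ Par n G U H
    · obtain ⟨h1, h2⟩ := Finset.mem_product.1 hθ
      obtain ⟨h3, h4⟩ := Finset.mem_product.1 h2
      obtain ⟨h5, h6⟩ := Finset.mem_filter.1 h1
      obtain ⟨h7, h8⟩ := Finset.mem_product.1 h5
      rw [Fintype.mem_piFinset] at h4
      have h9 : ∀ j, ext n θ.2.2 j ≤ H := by
        intro j
        unfold ext
        split_ifs with h
        · exact (Finset.mem_range.1 (h4 _)).le
        · exact Nat.zero_le _
      obtain ⟨x, x0, x1, x2, x3, x4, x5, x6, g, e, x7, x8, x9, x10⟩ :=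
        hpt H U θ.1.1 θ.2.1 θ.1.2 (ext n θ.2.2) hUH (Finset.mem_range.1 h7) (Finset.mem_range.1 h3)
          (Finset.mem_range.1 h8) h6 h9
      refine ⟨x, (g, e), fun _ => ⟨⟨x0, x1, x2, ?_, x3, x4, x5⟩, x6, ?_, x9, x10⟩⟩
      · exact lt_of_le_of_lt (Nat.zero_le _) (Finset.mem_range.1 h7)
      · refine Finset.mem_product.2 ⟨Finset.mem_range.2 (Nat.lt_succ_of_le x7),
          Finset.mem_range.2 (Nat.lt_succ_of_le ?_)⟩
        exact Nat.le_floor x8
    · exact ⟨0, (0, 0), fun h => absurd h hθ⟩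
  choose X ge hX using hex
  refine ⟨(Par n G U H).image X, ?_, ?_⟩
  · intro x hx
    obtain ⟨θ, hθ, rfl⟩ := Finset.mem_image.1 hx
    exact (hX θ hθ).1
  · have hfib : ∀ x ∈ (Par n G U H).image X, ((Par n G U H).filter fun θ => X θ = x).card ≤ M0 := by
      intro x hx
      have h1 : ((Par n G U H).filter fun θ => X θ = x).card ≤
          (range (G + 1) ×ˢ range (E0 + 1)).card := by
        apply Finset.card_le_card_of_injOn ge
        · intro θ hθ
          exact (hX θ (Finset.mem_filter.1 (Finset.mem_coe.1 hθ)).1).2.2.1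
        · intro θ hθ θ' hθ' hge
          obtain ⟨m1, m2⟩ := Finset.mem_filter.1 (Finset.mem_coe.1 hθ)
          obtain ⟨m3, m4⟩ := Finset.mem_filter.1 (Finset.mem_coe.1 hθ')
          obtain ⟨-, f1, -, f2, f3⟩ := hX θ m1
          obtain ⟨-, f4, -, f5, f6⟩ := hX θ' m3
          rw [m2] at f1 f3
          rw [m4] at f4 f6
          rw [← hge] at f6 f5
          have ha : 10 * θ.2.1 + 1 = 10 * θ'.2.1 + 1 := by
            have h2 : (0 : ℝ) < (ge θ).2 := by exact_mod_cast f2
            have h3 : ((10 * θ.2.1 + 1 : ℕ) : ℝ) * (ge θ).2 =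
                ((10 * θ'.2.1 + 1 : ℕ) : ℝ) * (ge θ).2 := by rw [f3, f6]
            have h4 := mul_right_cancel₀ h2.ne' h3
            exact_mod_cast h4
          rw [ha, ← f4, ← ha] at f1
          have hF := Polynomial.map_injective (Int.castRingHom ℚ) Int.cast_injective f1
          have e1 : θ.2.1 = θ'.2.1 := by omega
          have e0 : θ.1.1 = θ'.1.1 := by
            have h2 := congrArg (fun p : ℤ[X] => p.coeff 0) hF
            simp only [pl_zero] at h2
            exact XX_inj (by exact_mod_cast h2)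
          have e2 : θ.1.2 = θ'.1.2 := by
            have h2 := congrArg (fun p : ℤ[X] => p.eval (-1)) hF
            simp only [pl_eval hn] at h2
            have h3 : 10 * θ.1.2 + 1 = 10 * θ'.1.2 + 1 := by exact_mod_cast h2
            omega
          have e3 : θ.2.2 = θ'.2.2 := by
            funext i
            have hi := i.2
            have h2 := congrArg (fun p : ℤ[X] => p.coeff (i + 2)) hF
            simp only [pl_coeff] at h2
            rw [if_pos (by omega), if_pos (by omega), cf_mid (by omega) (by omega),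
              cf_mid (by omega) (by omega), ext_val, ext_val] at h2
            have h3 : (θ.2.2 i : ℤ) = θ'.2.2 i := mul_left_cancel₀ two_ne_zero h2
            exact_mod_cast h3
          exact Prod.ext (Prod.ext e0 e2) (Prod.ext e1 e3)
      rwa [Finset.card_product, Finset.card_range, Finset.card_range] at h1
    have h1 := Finset.card_le_mul_card_image (Par n G U H) M0 hfib
    have h2 : (Par n G U H).card = (goodP G U).card * (U * H ^ (n - 2)) := by
      unfold Par
      rw [Finset.card_product, Finset.card_product, Fintype.card_piFinset, Finset.prod_const,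
        Finset.card_univ, Fintype.card_fin, Finset.card_range, Finset.card_range]
    rw [h2] at h1
    have h3 := card_goodP hG0 hGr U
    have h4 : ((goodP G U).card : ℝ) * (U * (H : ℝ) ^ (n - 2)) ≤
        M0 * ((Par n G U H).image X).card := by exact_mod_cast h1
    have h5 : (0 : ℝ) ≤ U * (H : ℝ) ^ (n - 2) := by positivity
    nlinarith [mul_le_mul_of_nonneg_right h3 h5]

end Pool.Agent.T6.H79.ABC
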