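import Pool.Agent.T6.H79.ABC.Cnt
import Pool.Agent.W222.UABC.Final

/-!
# The points of the family
-/

set_option autoImplicit false

namespace Pool.Agent.T6.H79.ABC

open NumberField IsDedekindDomain Polynomial Height Module Finset
open Pool.Agent.H691R3 Pool.Agent.W223.AK Pool.Agent.W222.UABC
open scoped IntermediateField

theorem alg (x : AlgebraicClosure ℚ) : IsIntegral ℚ x := by
  have h := ((AlgebraicClosure.isAlgebraic ℚ).isAlgebraic x).isIntegral
  exact h

instance nf (x : AlgebraicClosure ℚ) : NumberField ℚ⟮x⟯ where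
  to_charZero := inferInstance
  to_finiteDimensional := IntermediateField.adjoin.finiteDimensional (alg x)

/-- the point attached to an algebraic number -/
noncomputable def pt (x : AlgebraicClosure ℚ) : Fin 3 → ℚ⟮x⟯ :=
  ![IntermediateField.AdjoinSimple.gen ℚ x, 1 - IntermediateField.AdjoinSimple.gen ℚ x, -1]

/-- the norm of the denominator of `x / (1 - x)` in the field of `x` -/
noncomputable def nu (x : AlgebraicClosure ℚ) : ℝ :=
  Real.exp (SF (IntermediateField.AdjoinSimple.gen ℚ x /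
    (1 - IntermediateField.AdjoinSimple.gen ℚ x)))

theorem nu_pos (x : AlgebraicClosure ℚ) : 0 < nu x := Real.exp_pos _

/-- the field of a Moebius transform -/
theorem adj_eq {x s : AlgebraicClosure ℚ} (hx : x ≠ 1) (h : s = x / (1 - x)) : ℚ⟮x⟯ = ℚ⟮s⟯ := by
  have h1 : (1 : AlgebraicClosure ℚ) - x ≠ 0 := sub_ne_zero.2 hx.symm
  have hs1 : 1 + s ≠ 0 := by
    rw [h]
    have : 1 + x / (1 - x) = 1 / (1 - x) := by
      field_simp
      ring
    rw [this]
    exact div_ne_zero one_ne_zero h1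
  have hxs : x = s / (1 + s) := by
    rw [eq_div_iff hs1, h]
    field_simp
    ring
  apply le_antisymm
  · rw [IntermediateField.adjoin_simple_le_iff, hxs]
    have hs := IntermediateField.mem_adjoin_simple_self ℚ s
    exact div_mem hs (add_mem (one_mem _) hs)
  · rw [IntermediateField.adjoin_simple_le_iff, h]
    have hs := IntermediateField.mem_adjoin_simple_self ℚ x
    exact div_mem hs (sub_mem (one_mem _) hs)

theorem point (n : ℕ) (hn : 2 ≤ n) (G : ℕ) (hG : 0 < G) : ∃ c : ℝ, 0 ≤ c ∧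
    ∀ (H U u0 u1 u2 : ℕ) (α : ℕ → ℕ), 10 * U ≤ H → u0 < U → u1 < U → u2 < U →
      Nat.gcd (10 * u0 + 1) (10 * u2 + 1) ≤ G → (∀ j, α j ≤ H) →
      ∃ x : AlgebraicClosure ℚ, x ≠ 0 ∧ x ≠ 1 ∧ finrank ℚ ℚ⟮x⟯ = n ∧
        (n : ℝ) * height (pt x) ≤ Real.log H + c ∧ Real.log H - c ≤ (n : ℝ) * height (pt x) ∧
        (n : ℝ) * conductor (pt x) ≤ 3 * Real.log ((10 * U : ℕ) : ℝ) + c ∧
        (pl n (10 * u1 + 1) (XX H u0) (10 * u2 + 1) α).map (Int.castRingHom ℚ) =
          C ((10 * u1 + 1 : ℕ) : ℚ) * minpoly ℚ (x / (1 - x)) ∧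
        ∃ g e : ℕ, g ≤ G ∧ (e : ℝ) ≤ Real.exp c * G ∧ 0 < e ∧
          ((10 * u1 + 1 : ℕ) : ℝ) * e = nu x * g := by
  obtain ⟨c, hc, hloc⟩ := local_data n (by omega)
  have hn0 : (0 : ℝ) < n := by exact_mod_cast (by omega : 0 < n)
  have hl2 : 0 ≤ Real.log 2 := Real.log_nonneg (by norm_num)
  have hGr : (1 : ℝ) ≤ G := by exact_mod_cast hG
  have hlG : 0 ≤ Real.log G := Real.log_nonneg hGr
  refine ⟨c + n * Real.log 2 + Real.log G, by positivity, ?_⟩
  intro H U u0 u1 u2 α hUH hu0 hu1 hu2 hg hα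
  have hH : 0 < H := by omega
  set a : ℕ := 10 * u1 + 1 with ha
  set m : ℕ := 10 * u2 + 1 with hm
  set F : ℤ[X] := pl n a (XX H u0) m α with hF
  have ha0 : 0 < a := by omega
  have hdeg : F.natDegree = n := pl_natDegree hn ha0
  have hF0 : F ≠ 0 := by
    intro h
    rw [h, natDegree_zero] at hdeg
    omega
  have hirr : Irreducible (F.map (Int.castRingHom ℚ)) :=
    pl_irr hn (XX_mod H u0) (by omega) (by omega)
  have hdegQ : (F.map (Int.castRingHom ℚ)).natDegree = n := by
    rw [natDegree_map_eq_of_injective Int.cast_injective, hdeg]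
  have hleadQ : (F.map (Int.castRingHom ℚ)).leadingCoeff = (a : ℚ) := by
    rw [leadingCoeff_map_of_injective Int.cast_injective, pl_lead hn ha0]
    simp
  -- the root
  obtain ⟨s, hs⟩ := IsAlgClosed.exists_aeval_eq_zero (AlgebraicClosure ℚ)
    (F.map (Int.castRingHom ℚ)) (natDegree_pos_iff_degree_pos.1 (by omega)).ne'
  have haq : (a : ℚ) ≠ 0 := by exact_mod_cast ha0.ne'
  have hmin : F.map (Int.castRingHom ℚ) = C (a : ℚ) * minpoly ℚ s := by
    have h1 := minpoly.eq_of_irreducible hirr hs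
    rw [hleadQ] at h1
    rw [← h1, mul_comm, mul_assoc, ← C_mul, inv_mul_cancel₀ haq, C_1, mul_one]
  have hmindeg : (minpoly ℚ s).natDegree = n := by
    have h1 := congrArg natDegree hmin
    rw [hdegQ, natDegree_C_mul haq] at h1
    exact h1.symm
  have hsF : aeval s F = 0 := by
    have e : Int.castRingHom ℚ = algebraMap ℤ ℚ := rfl
    rw [e, aeval_map_algebraMap] at hs
    exact hs
  have hs0 : s ≠ 0 := by
    rintro rfl
    have h1 := coeff_zero_eq_aeval_zero' (A := AlgebraicClosure ℚ) F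
    rw [hsF, pl_zero] at h1
    have h2 : XX H u0 = 0 := by
      have h3 : ((XX H u0 : ℤ) : AlgebraicClosure ℚ) = 0 := by simpa using h1
      exact_mod_cast h3
    have := XX_mod H u0
    omega
  have hs1 : 1 + s ≠ 0 := by
    intro h
    have h0 : s = algebraMap ℤ (AlgebraicClosure ℚ) (-1) := by
      rw [map_neg, map_one]
      linear_combination h
    rw [h0, aeval_algebraMap_apply_eq_algebraMap_eval, pl_eval hn] at hsF
    have h3 : ((m : ℤ) : AlgebraicClosure ℚ) = 0 := by simpa using hsF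
    have h4 : (m : ℤ) = 0 := by exact_mod_cast h3
    omega
  set x : AlgebraicClosure ℚ := s / (1 + s) with hx
  have hx0 : x ≠ 0 := div_ne_zero hs0 hs1
  have h1x : 1 - x = 1 / (1 + s) := by
    rw [hx]
    field_simp
    ring
  have hx1 : x ≠ 1 := by
    intro h
    rw [h, sub_self] at h1x
    exact div_ne_zero one_ne_zero hs1 h1x.symm
  have hsx : s = x / (1 - x) := by
    rw [h1x, hx]
    field_simp
  have hfin : finrank ℚ ℚ⟮x⟯ = n := by
    rw [adj_eq hx1 hsx, IntermediateField.adjoin.finrank (alg s), hmindeg]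
  -- the point over its field
  set γ : ℚ⟮x⟯ := IntermediateField.AdjoinSimple.gen ℚ x with hγ
  have hγx : (γ : AlgebraicClosure ℚ) = x := IntermediateField.AdjoinSimple.coe_gen ℚ x
  have hγ0 : γ ≠ 0 := by
    intro h
    apply hx0
    rw [← hγx, h]
    rfl
  have hγ1 : 1 - γ ≠ 0 := by
    intro h
    apply hx1
    have h2 : γ = 1 := (sub_eq_zero.1 h).symm
    rw [← hγx, h2]
    rfl
  set t : ℚ⟮x⟯ := γ / (1 - γ) with ht'
  have hts : (t : AlgebraicClosure ℚ) = s := by
    have h1 : (t : AlgebraicClosure ℚ) = (γ : AlgebraicClosure ℚ) / (1 - (γ : AlgebraicClosure ℚ)) :=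
      rfl
    rw [h1, hγx, ← hsx]
  have hPt : Pt t := by
    refine ⟨div_ne_zero hγ0 hγ1, ?_⟩
    have : t + 1 = 1 / (1 - γ) := by
      rw [ht']
      field_simp
      ring
    rw [this]
    exact div_ne_zero one_ne_zero hγ1
  obtain ⟨P, hP⟩ := exists_isP ∅ hPt
  have htF : aeval t F = 0 := by
    apply (algebraMap ℚ⟮x⟯ (AlgebraicClosure ℚ)).injective
    rw [map_zero, ← aeval_algebraMap_apply]
    have : algebraMap ℚ⟮x⟯ (AlgebraicClosure ℚ) t = s := hts
    rw [this]
    exact hsF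
  have htdeg : (minpoly ℚ t).natDegree = n := by
    have h1 := minpoly.algebraMap_eq (A := ℚ) (algebraMap ℚ⟮x⟯ (AlgebraicClosure ℚ)).injective t
    have : algebraMap ℚ⟮x⟯ (AlgebraicClosure ℚ) t = s := hts
    rw [this] at h1
    rw [← h1]
    exact hmindeg
  have hXX : XX H u0 = 2 * 5 ^ kk H u0 * (10 * u0 + 1) := rfl
  have h5a : Nat.Coprime 5 a := by
    exact ((Nat.Prime.coprime_iff_not_dvd (by norm_num)).2 (by omega))
  obtain ⟨r1, r2, r3, r4, r5⟩ := hloc ℚ⟮x⟯ hfin t F a (kk H u0) (10 * u0 + 1) m H P hdeg htdeg htF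
    (pl_lead hn ha0) (by rw [pl_zero, hXX]) (pl_eval hn) ha0 (by omega) (by omega) hH h5a
    (pl_bound hn (XX_le (by omega)) (by omega) (by omega) hα) le_XX hPt hP
  have hgcd : Nat.gcd (2 * 5 ^ kk H u0 * (10 * u0 + 1)) m = Nat.gcd (10 * u0 + 1) m :=
    gcd_XX H u0 u2
  rw [hgcd] at r2 r4
  set g : ℕ := Nat.gcd (10 * u0 + 1) m with hgdef
  have hg0 : 0 < g := Nat.gcd_pos_of_pos_left _ (by omega)
  have hgr : (0 : ℝ) < g := by exact_mod_cast hg0
  have hgG : (g : ℝ) ≤ G := by exact_mod_cast hg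
  have hlg : Real.log g ≤ Real.log G := Real.log_le_log hgr hgG
  have p1 : pt x 1 ≠ 0 := hγ1
  have psum : pt x 0 + pt x 1 + pt x 2 = 0 := by
    show γ + (1 - γ) + -1 = 0
    ring
  have pq : pt x 0 / pt x 1 = t := rfl
  have hb := H3_bounds p1 psum
  rw [pq, ← H3_height, hfin] at hb
  have hloss : lossK ℚ⟮x⟯ = n * Real.log 2 := by
    unfold lossK
    rw [← Finset.sum_mul]
    congr 1
    have := InfinitePlace.sum_mult_eq (K := ℚ⟮x⟯)
    rw [← hfin]
    exact_mod_cast this
  rw [hloss] at hb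
  have hR := R3_eq (T := ∅) (T' := ∅) (fun v => by simp) p1 psum hP
  rw [← R3_empty, hfin] at hR
  have hU10 : ∀ u, u < U → Real.log ((10 * u + 1 : ℕ) : ℝ) ≤ Real.log ((10 * U : ℕ) : ℝ) := by
    intro u hu
    apply Real.log_le_log (by exact_mod_cast (by omega : 0 < 10 * u + 1))
    exact_mod_cast (by omega : 10 * u + 1 ≤ 10 * U)
  refine ⟨x, hx0, hx1, hfin, by linarith [hb.2], by linarith [hb.1], ?_, ?_, ?_⟩
  · rw [hR]
    have := hU10 u0 hu0
    have := hU10 u1 hu1
    have := hU10 u2 hu2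
    linarith
  · rw [← hsx]
    exact hmin
  · obtain ⟨e, he⟩ := r4
    have hnn : 0 < nn (P 1) := nn_pos _
    have he0 : 0 < e := by
      rcases Nat.eq_zero_or_pos e with h | h
      · rw [h, mul_zero] at he
        have := Nat.mul_pos hnn hg0
        omega
      · exact h
    have har : (0 : ℝ) < a := by exact_mod_cast ha0
    have heR : (nn (P 1) : ℝ) * g = a * e := by exact_mod_cast he
    refine ⟨g, e, hg, ?_, he0, ?_⟩
    · have h1 : (a : ℝ) * e ≤ a * (Real.exp c * G) := by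
        rw [← heR]
        calc (nn (P 1) : ℝ) * g ≤ (Real.exp c * a) * G :=
              mul_le_mul r5 hgG hgr.le (by positivity)
          _ = a * (Real.exp c * G) := by ring
      have h2 : (e : ℝ) ≤ Real.exp c * G := le_of_mul_le_mul_left h1 har
      refine h2.trans ?_
      have h3 : Real.exp c ≤ Real.exp (c + n * Real.log 2 + Real.log G) := by
        apply Real.exp_le_exp.2
        have : 0 ≤ n * Real.log 2 := by positivity
        linarith
      exact mul_le_mul_of_nonneg_right h3 (by linarith)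
    · have h1 : nu x = (nn (P 1) : ℝ) := by
        rw [← exp_len, len_P1 hPt hP]
        rfl
      rw [h1, heR]

end Pool.Agent.T6.H79.ABC
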