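import Mathlib
import Pool.Agent.Helper259.AbsHt
import Pool.Agent.W222.UABC.Norm
import Pool.Agent.Y733.LS.Sum

/-!
# The height of a root of an integer polynomial of the same degree
-/

set_option autoImplicit false

namespace Pool.Agent.T6.H79.ABC

open NumberField IsDedekindDomain Polynomial Height Module
open Pool.Agent.Helper259.AbsHt Pool.Agent.Helper259.HtPoly
open Pool.Agent.H691R3 Pool.Agent.W223.AK Pool.Agent.W222.UABC
open Pool.Agent.Y733.LS (ht_eq_Sa logHeight_eq)

/-- the height of a product of linear factors -/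
theorem sum_roots (n : ℕ) : ∃ c : ℝ, 0 ≤ c ∧ ∀ S : Multiset Qbar, S.card ≤ n →
    (S.map fun β => absLogHeight ![1, β]).sum ≤
      c * S.card + absLogHeight (cv n (S.map fun β => X - C β).prod) := by
  obtain ⟨C1, hC1⟩ := absLogHeight_root n
  refine ⟨|C1| + Real.log (2 ^ n * (n + 1)), ?_, ?_⟩
  · have : (1 : ℝ) ≤ 2 ^ n * (n + 1) := by
      have h1 : (1 : ℝ) ≤ 2 ^ n := one_le_pow₀ (by norm_num)
      have h2 : (0 : ℝ) ≤ n := Nat.cast_nonneg n
      nlinarith
    have := Real.log_nonneg this
    positivity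
  · intro S
    induction S using Multiset.induction_on with
    | empty =>
      intro _
      simp only [Multiset.map_zero, Multiset.sum_zero, Multiset.card_zero, Nat.cast_zero, mul_zero,
        Multiset.prod_zero, zero_add]
      exact absLogHeight_nonneg _
    | cons β S ih =>
      intro hS
      rw [Multiset.card_cons] at hS
      have h1 := ih (by omega)
      have hprod0 : (S.map fun β => X - C β).prod ≠ 0 :=
        Multiset.prod_ne_zero (by
          intro h
          obtain ⟨γ, _, hγ⟩ := Multiset.mem_map.1 h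
          exact X_sub_C_ne_zero γ hγ)
      have hdeg : (S.map fun β => X - C β).prod.natDegree = S.card :=
        natDegree_multiset_prod_X_sub_C_eq_card S
      have h2 := absLogHeight_polymul n (X - C β) (S.map fun β => X - C β).prod
        (X_sub_C_ne_zero β) hprod0 (by rw [natDegree_X_sub_C, hdeg]; omega)
      have h3 := hC1 (X - C β) β (X_sub_C_ne_zero β) (by rw [natDegree_X_sub_C]; omega)
        (by simp)
      rw [Multiset.map_cons, Multiset.sum_cons, Multiset.map_cons, Multiset.prod_cons,
        Multiset.card_cons]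
      have h4 := le_abs_self C1
      push_cast
      nlinarith

/-- the height of a nonzero integral vector -/
theorem int_vec {ι : Type*} [Fintype ι] [Nonempty ι] (x : ι → ℤ) (hx : ∃ i, x i ≠ 0) {M : ℝ}
    (hM : ∀ i, |(x i : ℝ)| ≤ M) : absLogHeight (fun i => (x i : Qbar)) ≤ Real.log M := by
  classical
  obtain ⟨g, hg, hg1⟩ := Finset.extract_gcd x (Finset.univ_nonempty (α := ι))
  set d : ℤ := Finset.univ.gcd x with hd
  have hd0 : d ≠ 0 := by
    intro h
    obtain ⟨i, hi⟩ := hx
    apply hi
    rw [hg i (Finset.mem_univ i), h, zero_mul]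
  have h1 := absLogHeight_int g hg1
  have e1 : (fun i => (x i : Qbar)) = (d : Qbar) • fun i => (g i : Qbar) := by
    funext i
    have := congrArg (fun z : ℤ => (z : Qbar)) (hg i (Finset.mem_univ i))
    simp only [Int.cast_mul] at this
    rw [this]
    rfl
  rw [e1, absLogHeight_smul _ (by exact_mod_cast hd0), h1]
  obtain ⟨i, hi⟩ := exists_eq_ciSup_of_finite (f := fun i : ι => |g i|)
  rw [← hi]
  have hgi : 0 < |g i| := by
    by_contra hcon
    have h0 : |g i| = 0 := le_antisymm (not_lt.1 hcon) (abs_nonneg _)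
    have h2 : ∀ j, g j = 0 := by
      intro j
      have h3 : |g j| ≤ ⨆ i : ι, |g i| := Finite.le_ciSup (fun i : ι => |g i|) j
      rw [← hi, h0] at h3
      exact abs_eq_zero.1 (le_antisymm h3 (abs_nonneg _))
    obtain ⟨j, hj⟩ := hx
    apply hj
    rw [hg j (Finset.mem_univ j), h2 j, mul_zero]
  apply Real.log_le_log (by exact_mod_cast hgi)
  refine le_trans ?_ (hM i)
  have h2 : |g i| ≤ |x i| := by
    rw [hg i (Finset.mem_univ i), abs_mul]
    have : 1 ≤ |d| := Int.one_le_abs hd0
    nlinarith [abs_nonneg (g i)]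
  have h3 : ((|g i| : ℤ) : ℝ) ≤ ((|x i| : ℤ) : ℝ) := by exact_mod_cast h2
  rwa [Int.cast_abs (a := x i)] at h3

theorem logHeight_eq_ht {K : Type} [Field K] [NumberField K] (y : K) :
    logHeight ![1, y] = ht y := by
  have h1 : logHeight ![1, y] = logHeight₁ y := by
    rw [logHeight₁_eq_logHeight]
    have e : ![1, y] = ![y, 1] ∘ (Equiv.swap (0 : Fin 2) 1) := by
      funext i
      fin_cases i <;> simp
    rw [e, logHeight_comp_equiv]
  rw [h1, logHeight_eq, ht_eq_Sa]

/-- an integer polynomial of degree `n` with a root of degree `n` -/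
theorem map_eq {K : Type} [Field K] [NumberField K] {s : K} {F : ℤ[X]} {n : ℕ}
    (hF : F.natDegree = n) (hF0 : F ≠ 0) (hs : (minpoly ℚ s).natDegree = n) (h : aeval s F = 0) :
    F.map (Int.castRingHom ℚ) = C (F.leadingCoeff : ℚ) * minpoly ℚ s := by
  have h0 : F.map (Int.castRingHom ℚ) ≠ 0 :=
    (Polynomial.map_ne_zero_iff Int.cast_injective).2 hF0
  have h1 : aeval s (F.map (Int.castRingHom ℚ)) = 0 := by
    have : (Int.castRingHom ℚ) = algebraMap ℤ ℚ := rfl
    rw [this, aeval_map_algebraMap]
    exact h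
  obtain ⟨g, hg⟩ := minpoly.dvd ℚ s h1
  have hm := minpoly.monic (Algebra.IsIntegral.isIntegral (R := ℚ) s)
  have hg0 : g ≠ 0 := by
    rintro rfl
    rw [mul_zero] at hg
    exact h0 hg
  have hd : (F.map (Int.castRingHom ℚ)).natDegree = n := by
    rw [natDegree_map_eq_of_injective Int.cast_injective, hF]
  have hgd : g.natDegree = 0 := by
    rw [hg, natDegree_mul hm.ne_zero hg0, hs] at hd
    omega
  obtain ⟨c, hc⟩ := natDegree_eq_zero.1 hgd
  have hlc : (F.map (Int.castRingHom ℚ)).leadingCoeff = (F.leadingCoeff : ℚ) := by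
    rw [leadingCoeff_map_of_injective Int.cast_injective]
    rfl
  rw [hg, leadingCoeff_mul, hm.leadingCoeff, one_mul, ← hc, leadingCoeff_C] at hlc
  rw [hg, ← hc, hlc, mul_comm]

/-- the height of a root -/
theorem ht_le (n : ℕ) (hn : 0 < n) : ∃ c : ℝ, 0 ≤ c ∧
    ∀ (K : Type) [Field K] [NumberField K], Module.finrank ℚ K = n →
      ∀ (s : K) (F : ℤ[X]) (M : ℝ), F.natDegree = n → F ≠ 0 → (minpoly ℚ s).natDegree = n →
        aeval s F = 0 → (∀ i, |(F.coeff i : ℝ)| ≤ M) → ht s ≤ Real.log M + c := by
  obtain ⟨c, hc, hsum⟩ := sum_roots n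
  refine ⟨c * n, by positivity, ?_⟩
  intro K _ _ hK s F M hF hF0 hs hroot hM
  have hn0 : (0 : ℝ) < n := by exact_mod_cast hn
  set m := minpoly ℚ s with hm
  have hmon : m.Monic := minpoly.monic (Algebra.IsIntegral.isIntegral (R := ℚ) s)
  set G : Qbar[X] := m.map (algebraMap ℚ Qbar) with hG
  have hsp : G.Splits := IsAlgClosed.splits G
  have hGmon : G.Monic := hmon.map _
  have hGd : G.natDegree = n := by rw [hG, natDegree_map, hs]
  set S : Multiset Qbar := G.roots with hS
  have hcard : S.card = n := by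
    rw [hS, ← hGd]
    exact (splits_iff_card_roots.1 hsp)
  have hprod : (S.map fun β => X - C β).prod = G := by
    have := hsp.eq_prod_roots
    rw [hGmon.leadingCoeff, C_1, one_mul] at this
    exact this.symm
  have hval : ∀ β ∈ S, absLogHeight ![1, β] = ht s / n := by
    intro β hβ
    have h1 : β ∈ m.rootSet Qbar := by
      rw [mem_rootSet]
      refine ⟨hmon.ne_zero, ?_⟩
      have := (mem_roots hGmon.ne_zero).1 hβ
      rw [IsRoot.def, hG, eval_map_algebraMap] at this
      exact this
    rw [hm, ← Algebra.IsAlgebraic.range_eval_eq_rootSet_minpoly (K := K) (A := Qbar) s] at h1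
    obtain ⟨ψ, hψ⟩ := h1
    have h2 := absLogHeight_eq K (ψ : K →+* Qbar) ![1, s]
    rw [logHeight_eq_ht, hK] at h2
    rw [← h2]
    congr 1
    funext i
    fin_cases i
    · simp
    · simpa using hψ.symm
  have h1 := hsum S hcard.le
  rw [hprod, hcard] at h1
  have h2 : (S.map fun β => absLogHeight ![1, β]).sum = ht s := by
    rw [Multiset.map_congr rfl hval, Multiset.map_const', Multiset.sum_replicate, hcard,
      nsmul_eq_mul]
    field_simp
  rw [h2] at h1
  have h3 : absLogHeight (cv n G) ≤ Real.log M := by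
    have hmap := map_eq hF hF0 hs hroot
    have hl0 : (F.leadingCoeff : Qbar) ≠ 0 := by
      exact_mod_cast leadingCoeff_ne_zero.2 hF0
    rw [← absLogHeight_smul (cv n G) hl0]
    have e : (F.leadingCoeff : Qbar) • cv n G = fun i : Fin (n + 1) => ((F.coeff i : ℤ) : Qbar) := by
      funext i
      have h4 := congrArg (fun p : ℚ[X] => algebraMap ℚ Qbar (p.coeff i)) hmap
      simp only [coeff_map, coeff_C_mul, map_mul] at h4
      simp only [cv, hG, Pi.smul_apply, smul_eq_mul, coeff_map]
      simpa using h4.symm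
    rw [e]
    refine int_vec _ ⟨⟨n, by omega⟩, ?_⟩ fun i => hM i
    rw [← hF]
    exact leadingCoeff_ne_zero.2 hF0
  linarith

end Pool.Agent.T6.H79.ABC
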